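import Pool.Agent.Helper42.FR.Stmts

/-! # Row RB: the stable form of `exact` -/

set_option autoImplicit false

namespace Pool.Agent.Helper80.FR

open Matrix Pool.Agent.Helper81.Fmr Pool.Agent.Helper42.FR

universe u

section

variable {F : Type u} [Field F]

theorem schur_rank {A B : Type} [Fintype A] [DecidableEq A] [Fintype B] [DecidableEq B]
    (P : Matrix A B F) (Q : Matrix B A F) (R : Matrix B B F) :
    (R - Q * P).rank + Fintype.card A ≤ (fromBlocks (1 : Matrix A A F) P Q R).rank := by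
  have h1 := LinearMap.finrank_range_add_finrank_ker
    (fromBlocks (1 : Matrix A A F) P Q R).mulVecLin
  have h2 := LinearMap.finrank_range_add_finrank_ker (R - Q * P).mulVecLin
  rw [Module.finrank_fintype_fun_eq_card] at h1 h2
  rw [Fintype.card_sum] at h1
  have hmem : ∀ x : A ⊕ B → F, x ∈ LinearMap.ker (fromBlocks (1 : Matrix A A F) P Q R).mulVecLin →
      (x ∘ Sum.inl + P *ᵥ (x ∘ Sum.inr) = 0) ∧
      Q *ᵥ (x ∘ Sum.inl) + R *ᵥ (x ∘ Sum.inr) = 0 := by
    intro x hx
    rw [LinearMap.mem_ker, Matrix.mulVecLin_apply, fromBlocks_mulVec, one_mulVec] at hx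
    constructor
    · funext a
      exact congrFun hx (Sum.inl a)
    · funext a
      exact congrFun hx (Sum.inr a)
  have hk : ∀ x : A ⊕ B → F, x ∈ LinearMap.ker (fromBlocks (1 : Matrix A A F) P Q R).mulVecLin →
      x ∘ Sum.inr ∈ LinearMap.ker (R - Q * P).mulVecLin := by
    intro x hx
    obtain ⟨e1, e2⟩ := hmem x hx
    rw [LinearMap.mem_ker, Matrix.mulVecLin_apply, sub_mulVec, ← mulVec_mulVec,
      show P *ᵥ (x ∘ Sum.inr) = -(x ∘ Sum.inl) from (neg_eq_of_add_eq_zero_right e1).symm,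
      mulVec_neg, sub_neg_eq_add, add_comm]
    exact e2
  let g : LinearMap.ker (fromBlocks (1 : Matrix A A F) P Q R).mulVecLin →ₗ[F]
      LinearMap.ker (R - Q * P).mulVecLin :=
    { toFun := fun x => ⟨x.1 ∘ Sum.inr, hk x.1 x.2⟩
      map_add' := fun x y => rfl
      map_smul' := fun r x => rfl }
  have hg : Function.Injective g := by
    intro x y hxy
    have e : x.1 ∘ Sum.inr = y.1 ∘ Sum.inr := congrArg Subtype.val hxy
    have ex := (hmem x.1 x.2).1
    have ey := (hmem y.1 y.2).1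
    rw [e] at ex
    have e2 : x.1 ∘ Sum.inl = y.1 ∘ Sum.inl := add_right_cancel (ex.trans ey.symm)
    apply Subtype.ext
    funext a
    rcases a with a | a
    · exact congrFun e2 a
    · exact congrFun e a
  have h3 := LinearMap.finrank_le_finrank_of_injective hg
  unfold Matrix.rank
  omega

theorem AE_trans {b a c : ℕ} {X Y Z : Matrix (Fin b) (Fin b) F} (h1 : AE a X Y)
    (h2 : AE c Y Z) : AE (a + c) X Z := by
  unfold AE at *
  have e : X - Z = (X - Y) + (Y - Z) := by abel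
  rw [e]
  exact (rank_add_le' _ _).trans (add_le_add h1 h2)

theorem AE_neg {b a : ℕ} {X Y X' Y' : Matrix (Fin b) (Fin b) F} (h : AE a X Y)
    (e : X' - Y' = -(X - Y)) : AE a X' Y' := by
  unfold AE at *
  rw [e, show -(X - Y) = (-1 : Matrix (Fin b) (Fin b) F) * (X - Y) by rw [neg_mul, one_mul]]
  exact (rank_mul_le_right _ _).trans h

theorem AE_symm {b a : ℕ} {X Y : Matrix (Fin b) (Fin b) F} (h : AE a X Y) : AE a Y X :=
  AE_neg h (by abel)

theorem AE_pos {b a : ℕ} {X Y X' Y' : Matrix (Fin b) (Fin b) F} (h : AE a X Y)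
    (e : X' - Y' = X - Y) : AE a X' Y' := by
  unfold AE at *
  rw [e]
  exact h

theorem AE_mono {b a c : ℕ} {X Y : Matrix (Fin b) (Fin b) F} (h : AE a X Y) (hac : a ≤ c) :
    AE c X Y := le_trans h hac

theorem AE_mul_left {b a : ℕ} {X Y : Matrix (Fin b) (Fin b) F} (Z : Matrix (Fin b) (Fin b) F)
    (h : AE a X Y) : AE a (Z * X) (Z * Y) := by
  unfold AE at *
  rw [← mul_sub]
  exact (rank_mul_le_right _ _).trans h

theorem AE_mul_right {b a : ℕ} {X Y : Matrix (Fin b) (Fin b) F} (Z : Matrix (Fin b) (Fin b) F)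
    (h : AE a X Y) : AE a (X * Z) (Y * Z) := by
  unfold AE at *
  rw [← sub_mul]
  exact (rank_mul_le_left _ _).trans h

theorem key_rank {I J : Type} [Fintype I] [Fintype J] {b d : ℕ}
    (M : Matrix ((Fin 3 ⊕ I) × Fin b) ((Fin 3 ⊕ J) × Fin b) F)
    (h1 : ∀ a a' k l, M (Sum.inl a, k) (Sum.inl a', l) = if a = a' ∧ k = l then 1 else 0)
    (hr : M.rank ≤ 3 * b + d) (i : I) (j : J) :
    AE d (blk M (Sum.inr i) (Sum.inr j))
      (blk M (Sum.inr i) (Sum.inl 0) * blk M (Sum.inl 0) (Sum.inr j)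
      + blk M (Sum.inr i) (Sum.inl 1) * blk M (Sum.inl 1) (Sum.inr j)
      + blk M (Sum.inr i) (Sum.inl 2) * blk M (Sum.inl 2) (Sum.inr j)) := by
  set f : (Fin 3 × Fin b) ⊕ Fin b → (Fin 3 ⊕ I) × Fin b :=
    Sum.elim (fun x => (Sum.inl x.1, x.2)) (fun k => (Sum.inr i, k)) with hf
  set g : (Fin 3 × Fin b) ⊕ Fin b → (Fin 3 ⊕ J) × Fin b :=
    Sum.elim (fun x => (Sum.inl x.1, x.2)) (fun k => (Sum.inr j, k)) with hg
  have hN : (M.submatrix f g).rank ≤ 3 * b + d := le_trans (rank_submatrix_le M f g) hr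
  obtain ⟨P, hP⟩ : ∃ P : Matrix (Fin 3 × Fin b) (Fin b) F,
      ∀ x l, P x l = M (Sum.inl x.1, x.2) (Sum.inr j, l) :=
    ⟨fun x l => M (Sum.inl x.1, x.2) (Sum.inr j, l), fun _ _ => rfl⟩
  obtain ⟨Q, hQ⟩ : ∃ Q : Matrix (Fin b) (Fin 3 × Fin b) F,
      ∀ k x, Q k x = M (Sum.inr i, k) (Sum.inl x.1, x.2) :=
    ⟨fun k x => M (Sum.inr i, k) (Sum.inl x.1, x.2), fun _ _ => rfl⟩
  have hblk : M.submatrix f g = fromBlocks 1 P Q (blk M (Sum.inr i) (Sum.inr j)) := by
    ext a b
    rcases a with a | a <;> rcases b with b | b <;>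
      simp [hf, hg, h1, blk, Matrix.one_apply, Prod.ext_iff, hP, hQ]
  rw [hblk] at hN
  have h2 := (schur_rank _ _ _).trans hN
  rw [Fintype.card_prod, Fintype.card_fin, Fintype.card_fin] at h2
  have h3 : Q * P =
      blk M (Sum.inr i) (Sum.inl 0) * blk M (Sum.inl 0) (Sum.inr j)
      + blk M (Sum.inr i) (Sum.inl 1) * blk M (Sum.inl 1) (Sum.inr j)
      + blk M (Sum.inr i) (Sum.inl 2) * blk M (Sum.inl 2) (Sum.inr j) := by
    ext k l
    simp only [blk, Matrix.of_apply, Matrix.add_apply, Matrix.mul_apply, hQ, hP]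
    rw [Fintype.sum_prod_type, Fin.sum_univ_three]
  rw [h3] at h2
  unfold AE
  omega

end

theorem st_RB (F : Type u) [Field F] : ST_RB F := by
  intro V μ _ _ _ S b d M hM hr z hz
  have key := key_rank (d := d) M (by
    intro a a' k l
    have := hM (Sum.inl a) (Sum.inl a') _ rfl k l
    rw [this]
    by_cases h1 : a = a' <;> by_cases h2 : k = l <;> simp [h1, h2]) hr
  have sp : ∀ {i j a}, pm S i j = some a → blk M i j = a • (1 : Matrix (Fin b) (Fin b) F) :=
    fun h => blk_of_spec hM h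
  have hz' : ∀ i, blk M (Sum.inr (some (i, 1))) (Sum.inl 2) = z i := fun i => by rw [hz]
  clear hz
  have hP : ∀ i, AE d (blk M (Sum.inl 1) (Sum.inr (Sum.inl (i, false)))) (z i) := by
    intro i
    have h := key (some (i, 1)) (Sum.inl (i, false))
    rw [sp (i := Sum.inr (some (i, 1))) (j := Sum.inr (Sum.inl (i, false))) (a := 0) (by simp [pm, Sp]),
      sp (i := Sum.inr (some (i, 1))) (j := Sum.inl 0) (a := 0) rfl,
      sp (i := Sum.inr (some (i, 1))) (j := Sum.inl 1) (a := -1) rfl,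
      sp (i := Sum.inl 2) (j := Sum.inr (Sum.inl (i, false))) (a := 1) rfl, hz'] at h
    simp only [zero_smul, zero_mul, zero_add, neg_smul, one_smul, neg_mul, one_mul, mul_one] at h
    exact AE_pos h (by abel)
  have hMi : ∀ i, AE (2 * d) (blk M (Sum.inr (some (i, 0))) (Sum.inl 0)) (z i) := by
    intro i
    have h := key (some (i, 0)) (Sum.inl (i, false))
    rw [sp (i := Sum.inr (some (i, 0))) (j := Sum.inr (Sum.inl (i, false))) (a := 0) (by simp [pm, Sp]),
      sp (i := Sum.inr (some (i, 0))) (j := Sum.inl 1) (a := -1) rfl,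
      sp (i := Sum.inr (some (i, 0))) (j := Sum.inl 2) (a := 0) rfl,
      sp (i := Sum.inl 0) (j := Sum.inr (Sum.inl (i, false))) (a := 1) rfl] at h
    simp only [zero_smul, zero_mul, add_zero, neg_smul, one_smul, neg_mul, one_mul, mul_one] at h
    have h' : AE d (blk M (Sum.inr (some (i, 0))) (Sum.inl 0))
        (blk M (Sum.inl 1) (Sum.inr (Sum.inl (i, false)))) := AE_neg h (by abel)
    exact AE_mono (AE_trans h' (hP i)) (by omega)
  have hD2 : ∀ i, AE d (blk M (Sum.inl 1) (Sum.inr (Sum.inl (i, true)))) (z i) := by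
    intro i
    have h := key (some (i, 1)) (Sum.inl (i, true))
    rw [sp (i := Sum.inr (some (i, 1))) (j := Sum.inr (Sum.inl (i, true))) (a := 0) (by simp [pm, Sp]),
      sp (i := Sum.inr (some (i, 1))) (j := Sum.inl 0) (a := 0) rfl,
      sp (i := Sum.inr (some (i, 1))) (j := Sum.inl 1) (a := -1) rfl,
      sp (i := Sum.inl 2) (j := Sum.inr (Sum.inl (i, true))) (a := 1) rfl, hz'] at h
    simp only [zero_smul, zero_mul, zero_add, neg_smul, one_smul, neg_mul, one_mul, mul_one] at h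
    exact AE_pos h (by abel)
  have hD1 : ∀ i, AE (2 * d) (blk M (Sum.inl 0) (Sum.inr (Sum.inl (i, true)))) (z i) := by
    intro i
    have h := key none (Sum.inl (i, true))
    rw [sp (i := Sum.inr none) (j := Sum.inr (Sum.inl (i, true))) (a := 0) rfl,
      sp (i := Sum.inr none) (j := Sum.inl 0) (a := 1) rfl,
      sp (i := Sum.inr none) (j := Sum.inl 1) (a := -1) rfl,
      sp (i := Sum.inr none) (j := Sum.inl 2) (a := 0) rfl] at h
    simp only [zero_smul, zero_mul, add_zero, neg_smul, one_smul, neg_mul, one_mul] at h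
    have h' : AE d (blk M (Sum.inl 0) (Sum.inr (Sum.inl (i, true))))
        (blk M (Sum.inl 1) (Sum.inr (Sum.inl (i, true)))) := AE_neg h (by abel)
    exact AE_mono (AE_trans h' (hD2 i)) (by omega)
  have hN : ∀ i, AE (3 * d) (blk M (Sum.inr (some (i, 2))) (Sum.inl 2)) (z i) := by
    intro i
    have h := key (some (i, 2)) (Sum.inl (i, true))
    rw [sp (i := Sum.inr (some (i, 2))) (j := Sum.inr (Sum.inl (i, true))) (a := 0) (by simp [pm, Sp]),
      sp (i := Sum.inr (some (i, 2))) (j := Sum.inl 0) (a := -1) rfl,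
      sp (i := Sum.inr (some (i, 2))) (j := Sum.inl 1) (a := 0) rfl,
      sp (i := Sum.inl 2) (j := Sum.inr (Sum.inl (i, true))) (a := 1) rfl] at h
    simp only [zero_smul, zero_mul, add_zero, neg_smul, one_smul, neg_mul, one_mul, mul_one] at h
    have h' : AE d (blk M (Sum.inr (some (i, 2))) (Sum.inl 2))
        (blk M (Sum.inl 0) (Sum.inr (Sum.inl (i, true)))) := AE_neg h (by abel)
    exact AE_mono (AE_trans h' (hD1 i)) (by omega)
  refine ⟨?_, ?_, ?_⟩
  · intro m
    have h1 := key (some (S.r m, 2)) (Sum.inr m)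
    rw [sp (i := Sum.inr (some (S.r m, 2))) (j := Sum.inr (Sum.inr m)) (a := 0) (by simp [pm, Sp]),
      sp (i := Sum.inr (some (S.r m, 2))) (j := Sum.inl 0) (a := -1) rfl,
      sp (i := Sum.inr (some (S.r m, 2))) (j := Sum.inl 1) (a := 0) rfl,
      sp (i := Sum.inl 2) (j := Sum.inr (Sum.inr m)) (a := 1) rfl] at h1
    simp only [zero_smul, zero_mul, add_zero, neg_smul, one_smul, neg_mul, one_mul, mul_one] at h1
    have g1 : AE d (blk M (Sum.inr (some (S.r m, 2))) (Sum.inl 2))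
        (blk M (Sum.inl 0) (Sum.inr (Sum.inr m))) := AE_neg h1 (by abel)
    have g1' : AE (4 * d) (z (S.r m)) (blk M (Sum.inl 0) (Sum.inr (Sum.inr m))) :=
      AE_mono (AE_trans (AE_symm (hN (S.r m))) g1) (by omega)
    have h2 := key (some (S.o m, 1)) (Sum.inr m)
    rw [sp (i := Sum.inr (some (S.o m, 1))) (j := Sum.inr (Sum.inr m)) (a := 0) (by simp [pm, Sp]),
      sp (i := Sum.inr (some (S.o m, 1))) (j := Sum.inl 0) (a := 0) rfl,
      sp (i := Sum.inr (some (S.o m, 1))) (j := Sum.inl 1) (a := -1) rfl,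
      sp (i := Sum.inl 2) (j := Sum.inr (Sum.inr m)) (a := 1) rfl, hz'] at h2
    simp only [zero_smul, zero_mul, zero_add, neg_smul, one_smul, neg_mul, one_mul, mul_one] at h2
    have g2 : AE d (blk M (Sum.inl 1) (Sum.inr (Sum.inr m))) (z (S.o m)) := AE_pos h2 (by abel)
    have h3 := key (some (S.l m, 0)) (Sum.inr m)
    rw [sp (i := Sum.inr (some (S.l m, 0))) (j := Sum.inr (Sum.inr m)) (a := 0) (by simp [pm, Sp]),
      sp (i := Sum.inr (some (S.l m, 0))) (j := Sum.inl 1) (a := -1) rfl,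
      sp (i := Sum.inr (some (S.l m, 0))) (j := Sum.inl 2) (a := 0) rfl] at h3
    simp only [zero_smul, zero_mul, add_zero, neg_smul, one_smul, neg_mul, one_mul] at h3
    have g3 : AE d (blk M (Sum.inr (some (S.l m, 0))) (Sum.inl 0) *
        blk M (Sum.inl 0) (Sum.inr (Sum.inr m))) (blk M (Sum.inl 1) (Sum.inr (Sum.inr m))) :=
      AE_neg h3 (by abel)
    have g4 := AE_mul_right (z (S.r m)) (AE_symm (hMi (S.l m)))
    have g5 := AE_mul_left (blk M (Sum.inr (some (S.l m, 0))) (Sum.inl 0)) g1'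
    exact AE_mono (AE_trans g4 (AE_trans g5 (AE_trans g3 g2))) (by omega)
  · intro i j a hij hd
    have h := key (some (i, 1)) (Sum.inl (j, false))
    rw [sp (i := Sum.inr (some (i, 1))) (j := Sum.inr (Sum.inl (j, false))) (a := a)
        (by simp [pm, Sp, hij, hd]),
      sp (i := Sum.inr (some (i, 1))) (j := Sum.inl 0) (a := 0) rfl,
      sp (i := Sum.inr (some (i, 1))) (j := Sum.inl 1) (a := -1) rfl,
      sp (i := Sum.inl 2) (j := Sum.inr (Sum.inl (j, false))) (a := 1) rfl, hz'] at h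
    simp only [zero_smul, zero_mul, zero_add, neg_smul, one_smul, neg_mul, one_mul, mul_one] at h
    have g1 : AE d (z i - z j) (z i - blk M (Sum.inl 1) (Sum.inr (Sum.inl (j, false)))) :=
      AE_pos (hP j) (by abel)
    have g2 : AE d (z i - blk M (Sum.inl 1) (Sum.inr (Sum.inl (j, false))))
        (a • (1 : Matrix (Fin b) (Fin b) F)) := AE_neg h (by abel)
    exact AE_mono (AE_trans g1 g2) (by omega)
  · intro i a hk
    rw [← hz']
    exact sp (i := Sum.inr (some (i, 1))) (j := Sum.inl 2) hk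

end Pool.Agent.Helper80.FR
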